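import Pool.Agent.Helper57_C2.Stmts
import Pool.Agent.Helper69_K9.Fmg
import Pool.Agent.Helper79_WRA.Tower

/-!
# Squad C2, row TDF: the defect group of a block and `ML.IsDef`
-/

open scoped BigOperators

noncomputable section

namespace Pool.Agent.PP.C2.H20

open Pool.Agent.Helper51_AWC Pool.Agent.Helper79_WRA Pool.Agent.PP Pool.Agent.PP.KF
open Pool.Agent.PP.K9

attribute [local instance] Ideal.Quotient.field

/-- row TDF -/
theorem tdf : TdfStmt := by
  intro ℓ _ M _ hℓM G _ _ e he V hTp χ hχ h1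
  have hℓ : ℓ.Prime := Fact.out
  have := Fintype.ofFinite G
  have hF : GoodF ℓ (FF M) := H50.fld ℓ hℓ M hℓM
  obtain ⟨-, -, y, hy, hey, hnd, c, hc, hcy⟩ := H69.fmg ℓ M hℓM G e he V hTp
  have hlab : ∀ z : G, Cong M (omega (MonoidHom.id G) χ z) 0 ↔ labF M χ z = 0 := by
    intro z
    exact (H83.red_eq_zero_iff (omega_integral _ hχ z)).symm
  have hχc : H50.IsChar (fun a : G → FF M => res M a χ) := H50.isChar_res hχ
  refine ⟨hTp.pg, ⟨y, ?_, ?_, hnd⟩, ?_⟩
  · rw [hlab]
    intro h0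
    have h2 : res M (mulF (mulF c (clsum (FF M) (⊤ : Subgroup G) y)) e) χ =
        res M c χ * res M (clsum (FF M) (⊤ : Subgroup G) y) χ * res M e χ := by
      rw [H50.res_mul (H50.isCl_mulF hc (H50.isCl_clsum y)) he.1.1 hχ,
        H50.res_mul hc (H50.isCl_clsum y) hχ]
    rw [hcy, h1, H50.res_clsum, h0, mul_zero, zero_mul] at h2
    exact one_ne_zero h2
  · intro v hv
    rw [Subgroup.mem_centralizer_singleton_iff]
    exact Subgroup.mem_centralizer_iff.1 hy v hv
  · intro z hz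
    rw [hlab] at hz
    rcases H50.blk_dich he (H50.isCl_clsum (F := FF M) z) with ⟨n, hn⟩ | ⟨u, hu, hu'⟩
    · exfalso
      apply hz
      rw [← H50.res_clsum]
      exact H50.zero_of_nil he.1.1 (H50.isCl_clsum z) hχc h1 hn
    · obtain ⟨r, hr⟩ := H69.below hF he.1.1 hu hu' hTp.pg hTp.gd
      refine ⟨r, fun d hd => ?_⟩
      have h3 : r * d * r⁻¹ ∈ conjS r V := by
        rw [mem_conjS]
        have h4 : r⁻¹ * (r * d * r⁻¹) * r = d := by group
        rwa [h4]
      exact Subgroup.mem_centralizer_singleton_iff.1 (hr h3)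

end Pool.Agent.PP.C2.H20
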