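import Pool.Agent.Helper20_C2.YqnA
import Pool.Agent.Helper2_K9.PUG
import Pool.Agent.Helper75_K9.LBR
import Pool.Agent.Helper9_PP.Add
import Pool.Agent.Helper24_K9.Duc
import Pool.Agent.Helper75_PP.RelC

/-!
# Squad C2, row YQN: the term for `Q₁ = V ^ ℓ`
-/

open scoped BigOperators

set_option linter.unusedSectionVars false

noncomputable section

namespace Pool.Agent.PP.C2.H20

open Pool.Agent.Helper51_AWC Pool.Agent.Helper79_WRA Pool.Agent.PP Pool.Agent.PP.KF
open Pool.Agent.PP.K9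

attribute [local instance] Ideal.Quotient.field

section loc

variable {F : Type} [Field F] {G : Type} [Group G] [Finite G]

theorem br_add' (R : Subgroup G) (a b : G → F) (t : G) :
    br R (a + b) t = br R a t + br R b t := by
  by_cases h : t ∈ Subgroup.centralizer (R : Set G)
  · rw [H66.br_of_mem h, H66.br_of_mem h, H66.br_of_mem h]
    rfl
  · rw [H66.br_of_not_mem h, H66.br_of_not_mem h, H66.br_of_not_mem h, add_zero]

/-- good subgroups of the Brauer map at `Q₁` are good -/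
theorem gd_map {N Q₁ : Subgroup G} {e : G → F} {Q : Subgroup N}
    (h : Gd (fun t : N => br Q₁ e t) Q) : Gd e (Q.map N.subtype) := by
  obtain ⟨z, hz, hz0⟩ := h
  have hzV : (z : G) ∈ Subgroup.centralizer (Q₁ : Set G) := by
    by_contra hcon
    exact hz0 (H66.br_of_not_mem hcon)
  change br Q₁ e z ≠ 0 at hz0
  rw [H66.br_of_mem hzV] at hz0
  refine ⟨z, ?_, hz0⟩
  rw [Subgroup.mem_centralizer_iff]
  rintro _ ⟨q, hq, rfl⟩
  exact congrArg Subtype.val (Subgroup.mem_centralizer_iff.1 hz q hq)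

/-- the block of `N` above the Brauer map at `V` -/
theorem exists_f {ℓ : ℕ} (hF : GoodF ℓ F) {e : G → F} {V Q₁ N : Subgroup G} (hV : IsPGroup ℓ V)
    (hVN : V ≤ N) (hQV : Q₁ ≤ V) (hNN : Subgroup.normalizer (V : Set G) ≤ N)
    (hF0 : IsBlk (fun t : Subgroup.normalizer (V : Set G) => br V e t))
    (hE : IsIdem (fun t : N => br Q₁ e t)) :
    ∃ f : N → F, IsBlk f ∧ mulF (fun t : N => br Q₁ e t) f = f ∧ Gd f (V.subgroupOf N) ∧
      ¬ Gd ((fun t : N => br Q₁ e t) - f) (V.subgroupOf N) ∧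
      ∀ t : Subgroup.normalizer ((V.subgroupOf N : Subgroup N) : Set N),
        br (V.subgroupOf N) f t = br V e ((t : N) : G) := by
  have hV1 : IsPGroup ℓ (V.subgroupOf N) := hV.comap_subtype
  obtain ⟨V1, hV1d⟩ : ∃ V1 : Subgroup N, V1 = V.subgroupOf N := ⟨_, rfl⟩
  rw [← hV1d] at hV1 ⊢
  obtain ⟨E, hEd⟩ : ∃ E : N → F, E = fun t : N => br Q₁ e t := ⟨_, rfl⟩
  rw [← hEd] at hE ⊢
  have hB := H20.brm ℓ F hF N V1 (Subgroup.normalizer (V1 : Set N)) hV1
    (Subgroup.centralizer_le_normalizer _) le_rfl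
  -- the Brauer map of `E`
  have hbrE : ∀ t : N, br V1 E t = br V e (t : G) := by
    intro t
    by_cases ht : (t : G) ∈ Subgroup.centralizer (V : Set G)
    · have h1 : t ∈ Subgroup.centralizer (V1 : Set N) := by
        rw [hV1d]
        exact (KF.H56.mem_cent_sub hVN t).2 ht
      rw [H66.br_of_mem h1, H66.br_of_mem ht, hEd]
      exact H66.br_of_mem (Subgroup.centralizer_le hQV ht)
    · have h1 : t ∉ Subgroup.centralizer (V1 : Set N) := by
        intro h
        apply ht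
        rw [hV1d] at h
        exact (KF.H56.mem_cent_sub hVN t).1 h
      rw [H66.br_of_not_mem h1, H66.br_of_not_mem ht]
  -- it is a block
  have hblk : IsBlk (fun t : Subgroup.normalizer (V1 : Set N) => br V1 E t) := by
    have hinf : N ⊓ Subgroup.normalizer (V : Set G) = Subgroup.normalizer (V : Set G) :=
      inf_eq_right.2 hNN
    have h1 : (fun t : Subgroup.normalizer (V1 : Set N) => br V1 E t) =
        fun t : Subgroup.normalizer (V1 : Set N) => br V e ((t : N) : G) := by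
      funext t
      exact hbrE t
    rw [h1]
    subst hV1d
    exact H20.IsBlk_equiv ((KF.H56.nequiv hVN).trans (MulEquiv.subgroupCongr hinf)) hF0
  -- the block
  let L : (N → F) → (Subgroup.normalizer (V1 : Set N) → F) := fun a => fun t => br V1 a t
  have hL0 : L 0 = 0 := by
    funext t
    exact congrFun (H66.br_zero V1) t
  have hLadd : ∀ a b, L (a + b) = L a + L b := by
    intro a b
    funext t
    exact br_add' V1 a b t
  obtain ⟨f, hf, hf2, hf3⟩ := K9.H24.exists_blk L hL0 hLadd hE hblk.2.1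
  have hLf : IsIdem (L f) := hB.2.2 f hf.1
  have hLE : mulF (L E) (L f) = L f := by
    have h1 := hB.2.1 E f
    rw [← hB.1 E f hE.1 hf.1.1, hf2] at h1
    exact h1.symm
  have hLeq : L f = L E := by
    rcases hblk.2.2 (L f) hLf with h | h
    · rw [← hLE]
      exact h
    · exfalso
      apply hf3
      rw [← hLE]
      exact h
  refine ⟨f, hf, hf2, ?_, ?_, ?_⟩
  · apply K9.H69.gd_of_br
    intro h0
    apply hf3
    funext t
    exact congrFun h0 t
  · rintro ⟨x, hx, hx0⟩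
    apply hx0
    have hxN : x ∈ Subgroup.normalizer (V1 : Set N) := Subgroup.centralizer_le_normalizer _ hx
    have h1 := congrFun hLeq ⟨x, hxN⟩
    change br V1 f x = br V1 E x at h1
    rw [H66.br_of_mem hx, H66.br_of_mem hx] at h1
    change E x - f x = 0
    rw [h1, sub_self]
  · intro t
    have h1 := congrFun hLeq t
    change br V1 f t = br V1 E t at h1
    rw [h1, hbrE]

/-- the good subgroups of the image -/
theorem gd_comap {ℓ : ℕ} [Fact ℓ.Prime] (hF : GoodF ℓ F) {N : Type} [Group N] [Finite N]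
    {A : Type} [Group A] [Finite A] {p : N →* A} (hp : Function.Surjective p)
    (hkp : IsPGroup ℓ p.ker) {f : N → F} (hf : IsIdem f) {R : Subgroup A} (hR : IsPGroup ℓ R)
    (hg : Gd (PP.H75.push p f) R) : Gd f (R.comap p) := by
  have h1 : p.ker ≤ R.comap p := by
    intro x hx
    rw [MonoidHom.mem_ker] at hx
    rw [Subgroup.mem_comap, hx]
    exact R.one_mem
  have h2 : IsPGroup ℓ (R.comap p) := (PP.H75.isPGroup_comap_iff hp hkp R).2 hR
  refine (K9.H02.pug ℓ F hF N A p hp hkp f hf (R.comap p) h1 h2).2 ?_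
  rw [Subgroup.map_comap_eq_self_of_surjective hp]
  exact hg

end loc

section core

variable {ℓ : ℕ} [hℓ : Fact ℓ.Prime] {M : Ideal (integralClosure ℤ ℂ)} [M.IsMaximal]

/-- the sum over the subgroups of the order of `R₀` -/
theorem sum_conj (hM : (ℓ : integralClosure ℤ ℂ) ∈ M) {A : Type} [Group A] [Finite A]
    {a : A → FF M} (ha : IsIdem a) {k : ℕ} {R₀ : Subgroup A} (hR₀ : Nat.card R₀ = ℓ ^ k)
    (hcj : ∀ W : Subgroup A, Nat.card W = ℓ ^ k → Gd a W → ∃ g : A, W ≤ conjS g R₀) :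
    ∑ᶠ (W : Subgroup A) (_ : Nat.card W = ℓ ^ k),
        (Nat.card (Subgroup.normalizer (W : Set A)) : ℤ) *
          lnum (Subgroup.normalizer (W : Set A)) a =
      (Nat.card A : ℤ) * (lnum (Subgroup.normalizer (R₀ : Set A)) a : ℤ) := by
  classical
  have hF : GoodF ℓ (FF M) := H50.fld ℓ hℓ.out M hM
  have hfin : Fintype (Subgroup A) := Fintype.ofFinite _
  rw [finsum_eq_sum_of_fintype]
  simp only [finsum_eq_if]
  rw [← Finset.sum_filter]
  have h1 : Finset.univ.filter (fun W : Subgroup A => K9.H35.CJ R₀ W) ⊆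
      Finset.univ.filter (fun W : Subgroup A => Nat.card W = ℓ ^ k) := by
    intro W hW
    obtain ⟨-, g, rfl⟩ := Finset.mem_filter.1 hW
    exact Finset.mem_filter.2 ⟨Finset.mem_univ _, (card_conjS g R₀).trans hR₀⟩
  rw [← Finset.sum_subset h1]
  · have h2 : ∀ W ∈ Finset.univ.filter (fun W : Subgroup A => K9.H35.CJ R₀ W),
        (Nat.card (Subgroup.normalizer (W : Set A)) : ℤ) *
          lnum (Subgroup.normalizer (W : Set A)) a =
        (Nat.card (Subgroup.normalizer (R₀ : Set A)) : ℤ) *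
          lnum (Subgroup.normalizer (R₀ : Set A)) a := by
      intro W hW
      obtain ⟨-, g, rfl⟩ := Finset.mem_filter.1 hW
      rw [BN.H9.norm_conjS, card_conjS, K9.H35.lnum_conjS ha.1]
    rw [Finset.sum_congr rfl h2, Finset.sum_const, nsmul_eq_mul, ← mul_assoc,
      ← K9.H35.card_conj R₀]
    push_cast
    ring
  · intro W hW hW2
    obtain ⟨-, hWc⟩ := Finset.mem_filter.1 hW
    have hWp : IsPGroup ℓ W := IsPGroup.of_card hWc
    have h3 : ¬ Gd a W := by
      intro hg
      obtain ⟨g, hg2⟩ := hcj W hWc hg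
      apply hW2
      refine Finset.mem_filter.2 ⟨Finset.mem_univ _, g, ?_⟩
      refine Subgroup.eq_of_le_of_card_ge hg2 ?_
      rw [card_conjS, hR₀, hWc]
    rw [(K9.H75.lbr ℓ (FF M) hF A a ha W (Subgroup.normalizer (W : Set A)) hWp
      Subgroup.le_normalizer le_rfl).2 h3, Nat.cast_zero, mul_zero]

theorem core (duv : DuvStmt) (chs : ChsStmt) (tyq : TyqStmt)
    (hM : (ℓ : integralClosure ℤ ℂ) ∈ M) {n : ℕ} (hn : 2 ≤ n) {G : Type} [Group G] [Finite G]
    {e : G → FF M} (he : IsBlk e) {V : Subgroup G} (hV : Tp ℓ e V) (hVn : Tn ℓ n V)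
    {Q₁ : Subgroup G} (hQ : ∀ x, x ∈ Q₁ ↔ ∃ y ∈ V, y ^ ℓ = x)
    {A : Type} [Group A] [Finite A] {p : Subgroup.normalizer (Q₁ : Set G) →* A}
    (hp : Function.Surjective p)
    (hk : p.ker = Q₁.subgroupOf (Subgroup.normalizer (Q₁ : Set G))) :
    ∃ f : Subgroup.normalizer (Q₁ : Set G) → FF M, IsBlk f ∧
      Tp ℓ f (V.subgroupOf (Subgroup.normalizer (Q₁ : Set G))) ∧
      (Nat.card Q₁ : ℤ) * YY ℓ ⊤ (PP.H75.push p
          (fun t : Subgroup.normalizer (Q₁ : Set G) => br Q₁ e t)) =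
        (Nat.card (Subgroup.normalizer (Q₁ : Set G)) : ℤ) * ((lb f : ℤ) -
          (lb (fun t : Subgroup.normalizer (V : Set G) => br V e t) : ℤ)) := by
  have hpr : ℓ.Prime := hℓ.out
  have hF : GoodF ℓ (FF M) := H50.fld ℓ hpr M hM
  have hn1 : 1 ≤ n := by omega
  have hcQ : Nat.card Q₁ = ℓ ^ (n - 1) := card_q hn1 hVn hQ
  have hQV : Q₁ ≤ V := q_le hQ
  have hQN : Q₁ ≤ Subgroup.normalizer (Q₁ : Set G) := Subgroup.le_normalizer
  have hVN : V ≤ Subgroup.normalizer (Q₁ : Set G) :=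
    (le_cent hVn hQ).trans (Subgroup.centralizer_le_normalizer _)
  have hNN := norm_le hQ
  have hQp : IsPGroup ℓ Q₁ := IsPGroup.of_card hcQ
  have hkc : Nat.card p.ker = ℓ ^ (n - 1) := by
    rw [hk, ← hcQ]
    exact Nat.card_congr (Subgroup.subgroupOfEquivOfLe hQN).toEquiv
  have hkp : IsPGroup ℓ p.ker := IsPGroup.of_card hkc
  have hE : IsIdem (fun t : Subgroup.normalizer (Q₁ : Set G) => br Q₁ e t) :=
    (H20.brm ℓ (FF M) hF G Q₁ (Subgroup.normalizer (Q₁ : Set G)) hQp
      (Subgroup.centralizer_le_normalizer _) le_rfl).2.2 e he.1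
  obtain ⟨f, hf, hEf, hfV, hfr, hbr⟩ := exists_f hF hV.pg hVN hQV hNN
    (K9.H69.fmg ℓ M hM G e he V hV).2.1.1 hE
  -- the orders of the defect groups of the blocks of `A`
  have hduv : ∀ c : A → FF M, IsBlk c →
      mulF (PP.H75.push p (fun t : Subgroup.normalizer (Q₁ : Set G) => br Q₁ e t)) c = c →
      ∃ R : Subgroup A, Tp ℓ c R ∧ Nat.card R = ℓ ^ 2 ∧ ∃ g : G, upm p R = conjS g V := by
    intro c hc hc2
    obtain ⟨R, hR, g, hg⟩ := duv ℓ M hM G e he V hV hVn.comm Q₁ hQp A p hp hk c hc hc2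
    refine ⟨R, hR, ?_, g, hg⟩
    have h1 : Nat.card (upm p R) = Nat.card p.ker * Nat.card R := K9.H35.card_up hp R
    rw [hg, card_conjS, hVn.card, hkc] at h1
    have h2 : ℓ ^ (n + 1) = ℓ ^ (n - 1) * ℓ ^ 2 := by
      rw [← pow_add]
      congr 1
      omega
    rw [h2] at h1
    exact (Nat.eq_of_mul_eq_mul_left (pow_pos hpr.pos _) h1).symm
  obtain ⟨E, hEd⟩ : ∃ E : Subgroup.normalizer (Q₁ : Set G) → FF M,
      E = fun t : Subgroup.normalizer (Q₁ : Set G) => br Q₁ e t := ⟨_, rfl⟩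
  rw [← hEd] at hE hEf hfr hduv ⊢
  obtain ⟨hrI, hfr0⟩ := H46.isIdem_sub hE hf.1 hEf
  have hTf : Tp ℓ f (V.subgroupOf (Subgroup.normalizer (Q₁ : Set G))) := by
    refine ⟨hV.pg.comap_subtype, hfV, fun Q hQp' hQg => ?_⟩
    have h1 : Gd E Q := K9.H69.gd_factor hF hE.1 hf.1.1 hEf hQp' hQg
    rw [hEd] at h1
    have h2 := hV.mx _ (hQp'.map _) (gd_map h1)
    rw [K9.H69.card_map] at h2
    rwa [Nat.card_congr (Subgroup.subgroupOfEquivOfLe hVN).toEquiv]
  -- the part without `f`
  have hz : YY ℓ ⊤ (PP.H75.push p (E - f)) = 0 := by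
    refine H9.addStmt ℓ (FF M) hF A ⊤ inferInstance _ (PP.H75.push_isIdem hp hrI)
      fun c hc hc2 => ?_
    have hc3 : mulF (PP.H75.push p E) c = c := by
      have h1 : mulF E (E - f) = E - f := by
        apply ma_injective
        rw [ma_mul, ma_sub, mul_sub, H46.ma_idem hE, ← ma_mul, hEf]
      have h2 : mulF (PP.H75.push p E) (PP.H75.push p (E - f)) = PP.H75.push p (E - f) := by
        rw [← PP.H75.push_mulF, h1]
      conv_lhs => rw [← hc2, ← mulF_assoc, h2]
      exact hc2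
    obtain ⟨R, hR, hRc, g, hg⟩ := hduv c hc hc3
    have hcyc : IsCyclic R := by
      by_contra hnc
      have hgN := g_norm tyq hn1 hVn hQ hp hk hQN hnc hg
      have h1 : Gd (PP.H75.push p (E - f)) R :=
        K9.H69.gd_factor hF (PP.H75.push_isIdem hp hrI).1 hc.1.1 hc2 hR.pg hR.gd
      obtain ⟨x, hx, hx0⟩ := gd_comap hF hp hkp hrI hR.pg h1
      apply hfr
      refine ⟨⟨g, hgN⟩⁻¹ * x * ⟨g, hgN⟩, ?_, ?_⟩
      · rw [Subgroup.mem_centralizer_iff]
        intro v hv
        have h2 : g * (v : G) * g⁻¹ ∈ conjS g V := by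
          rw [mem_conjS]
          have h3 : g⁻¹ * (g * (v : G) * g⁻¹) * g = v := by group
          rw [h3]
          exact hv
        rw [← hg] at h2
        obtain ⟨h3, h4⟩ := K9.H35.mem_up.1 h2
        have h5 := Subgroup.mem_centralizer_iff.1 hx ⟨g * (v : G) * g⁻¹, h3⟩ h4
        have h6 : (⟨g * (v : G) * g⁻¹, h3⟩ : Subgroup.normalizer (Q₁ : Set G)) =
            ⟨g, hgN⟩ * v * ⟨g, hgN⟩⁻¹ := rfl
        rw [h6] at h5
        generalize (⟨g, hgN⟩ : Subgroup.normalizer (Q₁ : Set G)) = g' at h5 ⊢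
        calc v * (g'⁻¹ * x * g') = g'⁻¹ * (g' * v * g'⁻¹ * x) * g' := by group
          _ = g'⁻¹ * (x * (g' * v * g'⁻¹)) * g' := by rw [h5]
          _ = g'⁻¹ * x * g' * v := by group
      · have h2 := hrI.1 x (⟨g, hgN⟩ : Subgroup.normalizer (Q₁ : Set G))⁻¹
        rw [inv_inv] at h2
        rw [h2]
        exact hx0
    exact yy_cyc hM hc hR (by rw [hRc]; exact dvd_pow_self ℓ two_ne_zero) hcyc
  -- additivity
  have hadd : YY ℓ ⊤ (PP.H75.push p E) = YY ℓ ⊤ (PP.H75.push p f) := by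
    have h1 : PP.H75.push p E = PP.H75.push p f + PP.H75.push p (E - f) := by
      rw [← PP.H75.push_add]
      congr 1
      funext x
      change E x = f x + (E x - f x)
      ring
    rw [h1, H9.YY_add hF H94.nch H20.nls H20.brm H20.eig H20.ibf ⊤
      (PP.H75.push_isIdem hp hf.1) (PP.H75.push_isIdem hp hrI)
      (by rw [← PP.H75.push_mulF, hfr0, PP.H75.push_zero]), hz, add_zero]
  -- the chain formula
  have hpf : mulF (PP.H75.push p E) (PP.H75.push p f) = PP.H75.push p f := by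
    rw [← PP.H75.push_mulF, hEf]
  have hch := chs ℓ M hM A (PP.H75.push p f) (PP.H75.push_isIdem hp hf.1) (by
    intro c hc hc2
    have hc3 : mulF (PP.H75.push p E) c = c := by
      conv_lhs => rw [← hc2, ← mulF_assoc, hpf]
      exact hc2
    obtain ⟨R, hR, hRc, -⟩ := hduv c hc hc3
    exact ⟨R, hR, hRc⟩)
  -- the subgroups
  obtain ⟨R₀, hR₀⟩ : ∃ R₀ : Subgroup A,
      R₀ = (V.subgroupOf (Subgroup.normalizer (Q₁ : Set G))).map p := ⟨_, rfl⟩
  have hkV : p.ker ≤ V.subgroupOf (Subgroup.normalizer (Q₁ : Set G)) := by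
    rw [hk]
    intro x hx
    exact hQV hx
  have hR₀c : R₀.comap p = V.subgroupOf (Subgroup.normalizer (Q₁ : Set G)) := by
    rw [hR₀, Subgroup.comap_map_eq_self hkV]
  have hpow : ℓ ^ (n + 1) = ℓ ^ (n - 1) * ℓ ^ 2 := by
    rw [← pow_add]
    congr 1
    omega
  have hR₀n : Nat.card R₀ = ℓ ^ 2 := by
    have h1 := PP.H75.card_comap hp R₀
    rw [hR₀c, hkc, Nat.card_congr (Subgroup.subgroupOfEquivOfLe hVN).toEquiv, hVn.card, hpow] at h1
    exact (Nat.eq_of_mul_eq_mul_left (pow_pos hpr.pos _) h1).symm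
  have hsum := sum_conj hM (PP.H75.push_isIdem hp hf.1) (k := 2) hR₀n (by
    intro W hW hg
    have hWp : IsPGroup ℓ W := IsPGroup.of_card hW
    have h1 := gd_comap hF hp hkp hf.1 hWp hg
    obtain ⟨x, hx⟩ := (K9.H69.fmg ℓ M hM _ f hf _ hTf).1 _
      ((PP.H75.isPGroup_comap_iff hp hkp W).2 hWp) h1
    refine ⟨p x, ?_⟩
    rw [← hR₀c, PP.H75.conjS_comap] at hx
    exact (Subgroup.comap_le_comap_of_surjective hp).1 hx)
  -- the number of modular characters
  have hl1 : lnum (⊤ : Subgroup A) (PP.H75.push p f) = lb f := by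
    rw [← PP.H75.lnum_comap H20.nls hF hp hkp, Subgroup.comap_top, K9.H35.lnum_top]
    rfl
  have hl2 : lnum (Subgroup.normalizer (R₀ : Set A)) (PP.H75.push p f) =
      lb (fun t : Subgroup.normalizer (V : Set G) => br V e t) := by
    have h1 : (Subgroup.normalizer (R₀ : Set A)).comap p = Subgroup.normalizer
        ((V.subgroupOf (Subgroup.normalizer (Q₁ : Set G)) :
          Subgroup (Subgroup.normalizer (Q₁ : Set G))) : Set _) := by
      rw [← hR₀c]
      ext x
      rw [Subgroup.mem_comap]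
      exact (PP.H75.normalizer_comap hp R₀ x).symm
    rw [← PP.H75.lnum_comap H20.nls hF hp hkp, h1,
      (K9.H75.lbr ℓ (FF M) hF _ f hf.1 _ _ hTf.pg Subgroup.le_normalizer le_rfl).1]
    have h2 : lnum (Subgroup.normalizer
        ((V.subgroupOf (Subgroup.normalizer (Q₁ : Set G)) :
          Subgroup (Subgroup.normalizer (Q₁ : Set G))) : Set _))
        (br (V.subgroupOf (Subgroup.normalizer (Q₁ : Set G))) f) =
        lnum (Subgroup.normalizer
        ((V.subgroupOf (Subgroup.normalizer (Q₁ : Set G)) :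
          Subgroup (Subgroup.normalizer (Q₁ : Set G))) : Set _))
        (fun t : Subgroup.normalizer (Q₁ : Set G) => br V e t) := by
      have h3 : (fun t : Subgroup.normalizer
          ((V.subgroupOf (Subgroup.normalizer (Q₁ : Set G)) :
            Subgroup (Subgroup.normalizer (Q₁ : Set G))) :
              Set (Subgroup.normalizer (Q₁ : Set G))) =>
          br (V.subgroupOf (Subgroup.normalizer (Q₁ : Set G))) f t) =
          fun t : Subgroup.normalizer
          ((V.subgroupOf (Subgroup.normalizer (Q₁ : Set G)) :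
            Subgroup (Subgroup.normalizer (Q₁ : Set G))) :
              Set (Subgroup.normalizer (Q₁ : Set G))) =>
            br V e ((t : Subgroup.normalizer (Q₁ : Set G)) : G) := funext hbr
      unfold lnum
      rw [h3]
    rw [h2, H97.lnum_map]
    have h4 : (Subgroup.normalizer
        ((V.subgroupOf (Subgroup.normalizer (Q₁ : Set G)) :
          Subgroup (Subgroup.normalizer (Q₁ : Set G))) : Set _)).map
        (Subgroup.normalizer (Q₁ : Set G)).subtype = Subgroup.normalizer (V : Set G) := by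
      ext x
      constructor
      · rintro ⟨y, hy, rfl⟩
        exact (KF.H56.mem_norm_sub hVN y).1 hy
      · intro hx
        exact ⟨⟨x, hNN hx⟩, (KF.H56.mem_norm_sub hVN ⟨x, hNN hx⟩).2 hx, rfl⟩
    rw [h4]
    rfl
  refine ⟨f, hf, hTf, ?_⟩
  have hcard : (Nat.card (Subgroup.normalizer (Q₁ : Set G)) : ℤ) =
      (Nat.card Q₁ : ℤ) * (Nat.card A : ℤ) := by
    have h1 := PP.H75.card_comap hp (⊤ : Subgroup A)
    rw [Subgroup.comap_top, Subgroup.card_top, Subgroup.card_top, hkc, ← hcQ] at h1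
    rw [h1]
    push_cast
    ring
  rw [hadd, hch, hsum, hl1, hl2, hcard]
  ring

end core

/-- row YQN -/
theorem yqn (duv : DuvStmt) (chs : ChsStmt) (tyq : TyqStmt) : YqnStmt := by
  intro ℓ _ M _ hM n hn G _ _ e he V hV hVn Q₁ hQ
  exact core duv chs tyq hM hn he hV hVn hQ (QuotientGroup.mk'_surjective _)
    (QuotientGroup.ker_mk' _)

end Pool.Agent.PP.C2.H20
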