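import Pool.Agent.Helper57_C2.Stmts
import Pool.Agent.Helper35_K9.CHQ
import Pool.Agent.Helper35_K9.CHV
import Pool.Agent.Helper69_K9.Fmg

/-!
# Squad C2, row YQN, part 1: the subgroup `V ^ ℓ`, cyclic blocks
-/

open scoped BigOperators

set_option linter.unusedSectionVars false

noncomputable section

namespace Pool.Agent.PP.C2.H20

open Pool.Agent.Helper51_AWC Pool.Agent.Helper79_WRA Pool.Agent.PP Pool.Agent.PP.KF
open Pool.Agent.PP.K9

attribute [local instance] Ideal.Quotient.field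

/-- the power map of an abelian group of type `(ℓ ^ n, ℓ)` -/
theorem pow_mem {ℓ : ℕ} (hℓ : ℓ.Prime) {P : Type} [CommGroup P] [Finite P] {n : ℕ} (hn : 1 ≤ n)
    (hcard : Nat.card P = ℓ ^ (n + 1)) {u : P} (hu : orderOf u = ℓ ^ n) (hnc : ¬ IsCyclic P)
    (x : P) : x ^ ℓ ∈ Subgroup.zpowers (u ^ ℓ) := by
  have hℓ0 : 0 < ℓ := hℓ.pos
  have hH : Nat.card (Subgroup.zpowers u) = ℓ ^ n := by rw [Nat.card_zpowers, hu]
  have hQ : Nat.card (P ⧸ Subgroup.zpowers u) = ℓ := by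
    have h1 := Subgroup.card_eq_card_quotient_mul_card_subgroup (Subgroup.zpowers u)
    rw [hcard, hH, pow_succ, mul_comm] at h1
    exact (Nat.eq_of_mul_eq_mul_right (pow_pos hℓ0 n) h1).symm
  have : Fact ℓ.Prime := ⟨hℓ⟩
  have hpow : x ^ ℓ ∈ Subgroup.zpowers u := by
    rw [← QuotientGroup.eq_one_iff, QuotientGroup.mk_pow, ← hQ]
    exact pow_card_eq_one'
  obtain ⟨k, hk⟩ := (mem_powers_iff_mem_zpowers (x := u) (y := x ^ ℓ)).2 hpow
  dsimp only at hk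
  by_cases hd : ℓ ∣ k
  · obtain ⟨k', rfl⟩ := hd
    rw [← hk, pow_mul]
    exact Subgroup.npow_mem_zpowers (u ^ ℓ) k'
  · exfalso
    apply hnc
    have hco : Nat.Coprime k (ℓ ^ n) := ((Nat.Prime.coprime_iff_not_dvd hℓ).2 hd).symm.pow_right n
    have h1 : orderOf (x ^ ℓ) = ℓ ^ n := by
      rw [← hk, Nat.Coprime.orderOf_pow (by rw [hu]; exact hco.symm), hu]
    have h2 : orderOf x = ℓ ^ (n + 1) := by
      have h3 : orderOf x ∣ ℓ ^ (n + 1) := by rw [← hcard]; exact orderOf_dvd_natCard x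
      obtain ⟨j, hj, hj2⟩ := (Nat.dvd_prime_pow hℓ).1 h3
      rcases Nat.lt_or_ge j (n + 1) with h4 | h4
      · exfalso
        have h5 : x ^ ℓ ^ n = 1 := by
          rw [← orderOf_dvd_iff_pow_eq_one, hj2]
          exact pow_dvd_pow ℓ (by omega)
        have h6 : (x ^ ℓ) ^ ℓ ^ (n - 1) = 1 := by
          rw [← pow_mul, ← pow_succ', Nat.sub_add_cancel hn, h5]
        have h7 := orderOf_dvd_of_pow_eq_one h6
        rw [h1] at h7
        have h8 := (Nat.pow_dvd_pow_iff_le_right hℓ.one_lt).1 h7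
        omega
      · rw [hj2]
        congr 1
        omega
    exact isCyclic_of_orderOf_eq_card x (by rw [h2, hcard])

section grp

variable {G : Type} [Group G] [Finite G] {ℓ n : ℕ} [hfact : Fact ℓ.Prime] {V Q₁ : Subgroup G}

theorem card_q (hn : 1 ≤ n) (hV : Tn ℓ n V) (hQ : ∀ x, x ∈ Q₁ ↔ ∃ y ∈ V, y ^ ℓ = x) :
    Nat.card Q₁ = ℓ ^ (n - 1) := by
  have hℓ : ℓ.Prime := Fact.out
  obtain ⟨u, huV, hu⟩ := hV.gen
  let _ : CommGroup V := { (inferInstance : Group V) with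
    mul_comm := fun a b => Subtype.ext (hV.comm a a.2 b b.2) }
  have hu' : orderOf (⟨u, huV⟩ : V) = ℓ ^ n := by rw [← hu, Subgroup.orderOf_mk]
  have h1 : Q₁ = Subgroup.zpowers (u ^ ℓ) := by
    apply le_antisymm
    · intro x hx
      obtain ⟨y, hy, rfl⟩ := (hQ x).1 hx
      have h2 := pow_mem hℓ hn hV.card hu' hV.ncyc (⟨y, hy⟩ : V)
      obtain ⟨k, hk⟩ := Subgroup.mem_zpowers_iff.1 h2
      exact Subgroup.mem_zpowers_iff.2 ⟨k, congrArg Subtype.val hk⟩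
    · rw [Subgroup.zpowers_le]
      exact (hQ _).2 ⟨u, huV, rfl⟩
  rw [h1, Nat.card_zpowers, orderOf_pow_of_dvd hℓ.pos.ne', hu]
  · obtain ⟨m, rfl⟩ := Nat.exists_eq_add_of_le' hn
    rw [pow_succ, Nat.mul_div_cancel _ hℓ.pos, Nat.add_sub_cancel]
  · rw [hu]
    exact dvd_pow_self ℓ (by omega)

theorem q_le (hQ : ∀ x, x ∈ Q₁ ↔ ∃ y ∈ V, y ^ ℓ = x) : Q₁ ≤ V := by
  intro x hx
  obtain ⟨y, hy, rfl⟩ := (hQ x).1 hx
  exact pow_mem' hy
where
  pow_mem' {y : G} (hy : y ∈ V) : y ^ ℓ ∈ V := V.pow_mem hy ℓ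

theorem norm_le (hQ : ∀ x, x ∈ Q₁ ↔ ∃ y ∈ V, y ^ ℓ = x) :
    Subgroup.normalizer (V : Set G) ≤ Subgroup.normalizer (Q₁ : Set G) := by
  have key : ∀ g ∈ Subgroup.normalizer (V : Set G), ∀ x ∈ Q₁, g * x * g⁻¹ ∈ Q₁ := by
    intro g hg x hx
    obtain ⟨y, hy, rfl⟩ := (hQ x).1 hx
    refine (hQ _).2 ⟨g * y * g⁻¹, (Subgroup.mem_normalizer_iff.1 hg y).1 hy, ?_⟩
    rw [conj_pow]
  intro g hg
  rw [Subgroup.mem_normalizer_iff]
  intro x
  refine ⟨key g hg x, fun h => ?_⟩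
  have h1 := key g⁻¹ (inv_mem hg) _ h
  have h2 : g⁻¹ * (g * x * g⁻¹) * g⁻¹⁻¹ = x := by group
  rwa [h2] at h1

theorem le_cent (hV : Tn ℓ n V) (hQ : ∀ x, x ∈ Q₁ ↔ ∃ y ∈ V, y ^ ℓ = x) :
    V ≤ Subgroup.centralizer (Q₁ : Set G) := by
  intro v hv
  rw [Subgroup.mem_centralizer_iff]
  intro x hx
  exact hV.comm x (q_le hQ hx) v hv

/-- the conjugating element normalises `V ^ ℓ` unless the quotient is cyclic -/
theorem g_norm (tyq : TyqStmt) (hn : 1 ≤ n) (hV : Tn ℓ n V)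
    (hQ : ∀ x, x ∈ Q₁ ↔ ∃ y ∈ V, y ^ ℓ = x) {N : Subgroup G} {A : Type} [Group A] [Finite A]
    {p : N →* A} (hp : Function.Surjective p) (hk : p.ker = Q₁.subgroupOf N) (hQN : Q₁ ≤ N)
    {R : Subgroup A} (hR : ¬ IsCyclic R) {g : G} (hg : upm p R = conjS g V) :
    g ∈ Subgroup.normalizer (Q₁ : Set G) := by
  have hmem : ∀ x : G, x ∈ conjS g V ↔ ∃ h : x ∈ N, p ⟨x, h⟩ ∈ R := by
    intro x
    rw [← hg]
    exact K9.H35.mem_up
  have h1 : ∀ v : V, g * v * g⁻¹ ∈ conjS g V := by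
    intro v
    rw [mem_conjS]
    have h2 : g⁻¹ * (g * v * g⁻¹) * g = v := by group
    rw [h2]
    exact v.2
  have h2 : ∀ v : V, ∃ h : g * v * g⁻¹ ∈ N, p ⟨g * v * g⁻¹, h⟩ ∈ R := fun v => (hmem _).1 (h1 v)
  let φ : V →* R := MonoidHom.mk' (fun v => ⟨p ⟨g * v * g⁻¹, (h2 v).choose⟩, (h2 v).choose_spec⟩)
    (by
      intro a b
      apply Subtype.ext
      change p _ = p _ * p _
      rw [← map_mul]
      congr 1
      apply Subtype.ext
      change g * ((a : G) * (b : G)) * g⁻¹ = g * a * g⁻¹ * (g * b * g⁻¹)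
      group)
  have hφ : ∀ (v : V) (h : g * (v : G) * g⁻¹ ∈ N), ((φ v : R) : A) = p ⟨g * v * g⁻¹, h⟩ :=
    fun v h => rfl
  have hsur : Function.Surjective φ := by
    rintro ⟨r, hr⟩
    obtain ⟨m, rfl⟩ := hp r
    have h3 : (m : G) ∈ conjS g V := (hmem _).2 ⟨m.2, hr⟩
    rw [mem_conjS] at h3
    refine ⟨⟨g⁻¹ * m * g, h3⟩, ?_⟩
    apply Subtype.ext
    have h4 : g * (g⁻¹ * (m : G) * g) * g⁻¹ = m := by group
    have h5 : g * (g⁻¹ * (m : G) * g) * g⁻¹ ∈ N := by rw [h4]; exact m.2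
    rw [hφ _ h5]
    congr 1
    exact Subtype.ext h4
  obtain ⟨i, hi, -, -, -, -, hker⟩ := tyq ℓ V R n hn
    (fun a b => Subtype.ext (hV.comm a a.2 b b.2)) hV.card
    (by
      obtain ⟨u, huV, hu⟩ := hV.gen
      exact ⟨⟨u, huV⟩, by rw [Subgroup.orderOf_mk, hu]⟩) hV.ncyc φ hsur hR
  have hle : Q₁ ≤ conjS g Q₁ := by
    intro x hx
    have h3 : p ⟨x, hQN hx⟩ = 1 := by
      rw [← MonoidHom.mem_ker, hk]
      exact hx
    have h4 : x ∈ conjS g V := (hmem x).2 ⟨hQN hx, by rw [h3]; exact R.one_mem⟩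
    rw [mem_conjS] at h4 ⊢
    have h5 : (⟨g⁻¹ * x * g, h4⟩ : V) ∈ φ.ker := by
      rw [MonoidHom.mem_ker]
      apply Subtype.ext
      have h6 : g * (g⁻¹ * x * g) * g⁻¹ = x := by group
      have h7 : g * (g⁻¹ * x * g) * g⁻¹ ∈ N := by rw [h6]; exact hQN hx
      rw [hφ _ h7]
      change _ = (1 : A)
      rw [← h3]
      congr 1
      exact Subtype.ext h6
    obtain ⟨y, hy⟩ := (hker _).1 h5
    have h6 : (y : G) ^ ℓ ^ i = g⁻¹ * x * g := congrArg Subtype.val hy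
    refine (hQ _).2 ⟨(y : G) ^ ℓ ^ (i - 1), V.pow_mem y.2 _, ?_⟩
    rw [← pow_mul, ← pow_succ, Nat.sub_add_cancel hi, h6]
  rw [mem_normalizer_iff_conjS]
  exact (Subgroup.eq_of_le_of_card_ge hle (by rw [card_conjS])).symm

end grp

section nil

variable {F : Type} [Field F] {K : Type} [Group K] [Finite K]

/-- a block with a good subgroup `R ≠ 1` has positive defect -/
theorem pos_of_good {ℓ : ℕ} [Fact ℓ.Prime] (hF : GoodF ℓ F) {γ : K → F} (hγ : IsBlk γ)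
    {R : Subgroup K} (hR : ℓ ∣ Nat.card R) (hg : Gd γ R) : Pos ℓ γ ⊤ := by
  intro x _ hx
  rw [inf_top_eq] at hx
  obtain ⟨a, ha⟩ := exists_prime_orderOf_dvd_card' ℓ hR
  have h1 : Nat.card (Subgroup.zpowers (a : K)) = ℓ := by
    rw [Nat.card_zpowers, Subgroup.orderOf_coe, ha]
  refine K9.H35.nil_of_good hF hγ h1 ?_ hx
  obtain ⟨t, ht, ht2⟩ := hg
  refine ⟨t, ?_, ht2⟩
  exact Subgroup.centralizer_le (Subgroup.zpowers_le.2 a.2) ht

end nil

/-- blocks with cyclic defect groups -/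
theorem yy_cyc {ℓ : ℕ} [hℓ : Fact ℓ.Prime] {M : Ideal (integralClosure ℤ ℂ)} [M.IsMaximal]
    (hM : (ℓ : integralClosure ℤ ℂ) ∈ M) {A : Type} [Group A] [Finite A] {c : A → FF M}
    (hc : IsBlk c) {R : Subgroup A} (hR : Tp ℓ c R) (hd : ℓ ∣ Nat.card R) (hcyc : IsCyclic R) :
    YY ℓ ⊤ c = 0 := by
  have hF : GoodF ℓ (FF M) := H50.fld ℓ hℓ.out M hM
  refine CD2.Asm.d2a_ ℓ (FF M) hF A ⊤ inferInstance c hc.1 (pos_of_good hF hc hd hR.gd)
    ⟨c, hc.1, fun x hx => absurd (Subgroup.mem_top x) hx, hc.1.2, fun Q _ hQp hbr => ?_⟩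
  have h1 : Gd c Q := K9.H69.gd_of_br hbr
  obtain ⟨g, hg⟩ := (K9.H69.fmg ℓ M hM A c hc R hR).1 Q hQp h1
  have e1 : R ≃* conjS g R := R.equivMapOfInjective _ (MulAut.conj g).injective
  have : IsCyclic (conjS g R) := isCyclic_of_surjective e1.toMonoidHom e1.surjective
  exact isCyclic_of_injective (Subgroup.inclusion hg) (Subgroup.inclusion_injective hg)

end Pool.Agent.PP.C2.H20
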